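import Mathlib
import Pool.Agent.H918R3.TB1

/-!
# Square roots of the two-descent map on doubles of points (helper65, for helper791)
-/

set_option autoImplicit false
set_option linter.unusedSectionVars false

namespace Pool.Agent.Y65.D2

open WeierstrassCurve Pool.Agent.H918R3 Pool.Agent.H918R3.TB1

variable {K : Type} [Field K]

open Classical in
/-- the square root of `dlW e f g (2 Q)` -/
noncomputable def rr {W : WeierstrassCurve K} (e f g : K) : W.toAffine.Point → K
  | .zero => 1
  | .some x y _ => if y = 0 then 1 else if (x - e) ^ 2 = (e - f) * (e - g) then x - e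
      else ((x - e) ^ 2 - (e - f) * (e - g)) / (2 * y)

open Classical in
/-- the character of the points of order two with kernel generated by `(e, 0)` -/
noncomputable def ww {W : WeierstrassCurve K} (e : K) : W.toAffine.Point → ℤ
  | .zero => 1
  | .some x _ _ => if x = e then 1 else -1

lemma ww_some {W : WeierstrassCurve K} (e x y : K) (h) :
    ww e (Affine.Point.some x y h : W.toAffine.Point) =
      open Classical in if x = e then 1 else -1 := rfl

lemma rr_some {W : WeierstrassCurve K} (e f g x y : K) (h) :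
    rr e f g (Affine.Point.some x y h : W.toAffine.Point) =
      open Classical in if y = 0 then 1 else if (x - e) ^ 2 = (e - f) * (e - g) then x - e
      else ((x - e) ^ 2 - (e - f) * (e - g)) / (2 * y) := rfl

lemma ww_or {W : WeierstrassCurve K} (e : K) (P : W.toAffine.Point) : ww e P = 1 ∨ ww e P = -1 := by
  cases P with
  | zero => exact Or.inl rfl
  | some x y h =>
    rw [ww_some]
    split_ifs
    · exact Or.inl rfl
    · exact Or.inr rfl

lemma ww_mul_self {W : WeierstrassCurve K} (e : K) (P : W.toAffine.Point) :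
    ww e P * ww e P = 1 := by
  rcases ww_or e P with h | h <;> rw [h] <;> norm_num

lemma alg1 {e f g x y X Y : K} (h2 : (2 : K) ≠ 0) (hy : y ≠ 0) (hxe : x - e ≠ 0)
    (hA : (e - f) * (e - g) ≠ 0)
    (hX : (X - e) * (x - e) = (e - f) * (e - g))
    (hY : Y * (x - e) ^ 2 = -((e - f) * (e - g)) * y) :
    (open Classical in if Y = 0 then (1 : K) else if (X - e) ^ 2 = (e - f) * (e - g) then X - e
      else ((X - e) ^ 2 - (e - f) * (e - g)) / (2 * Y)) =
    (open Classical in if y = 0 then (1 : K) else if (x - e) ^ 2 = (e - f) * (e - g) then x - e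
      else ((x - e) ^ 2 - (e - f) * (e - g)) / (2 * y)) := by
  generalize (e - f) * (e - g) = A at hA hX hY ⊢
  have hY0 : Y ≠ 0 := by
    rintro rfl
    rw [zero_mul] at hY
    exact (mul_ne_zero (neg_ne_zero.2 hA) hy) hY.symm
  rw [if_neg hY0, if_neg hy]
  by_cases h3 : (x - e) ^ 2 = A
  · have h4 : X - e = x - e := by
      apply mul_right_cancel₀ hxe
      rw [hX, ← h3, sq]
    rw [if_pos (by rw [h4, h3]), if_pos h3, h4]
  · have h4 : ¬ (X - e) ^ 2 = A := by
      intro h4
      apply h3
      have h5 : A * (x - e) ^ 2 = A * A := by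
        rw [← h4, ← mul_pow, hX, h4]; ring
      exact mul_left_cancel₀ hA h5
    rw [if_neg h3, if_neg h4, div_eq_div_iff (mul_ne_zero h2 hY0) (mul_ne_zero h2 hy)]
    apply mul_right_cancel₀ (pow_ne_zero 2 hxe)
    have h5 : (X - e) ^ 2 * (x - e) ^ 2 = A ^ 2 := by rw [← mul_pow, hX]
    linear_combination (2 * y) * h5 - 2 * ((x - e) ^ 2 - A) * hY

lemma alg2 {e f g x y X Y : K} (h2 : (2 : K) ≠ 0) (hy : y ≠ 0) (hxf : x - f ≠ 0)
    (hB : (f - e) * (f - g) ≠ 0)
    (hX : (X - f) * (x - f) = (f - e) * (f - g))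
    (hY : Y * (x - f) ^ 2 = -((f - e) * (f - g)) * y) :
    (open Classical in if Y = 0 then (1 : K) else if (X - e) ^ 2 = (e - f) * (e - g) then X - e
      else ((X - e) ^ 2 - (e - f) * (e - g)) / (2 * Y)) =
    -(open Classical in if y = 0 then (1 : K) else if (x - e) ^ 2 = (e - f) * (e - g) then x - e
      else ((x - e) ^ 2 - (e - f) * (e - g)) / (2 * y)) := by
  have hY0 : Y ≠ 0 := by
    rintro rfl
    rw [zero_mul] at hY
    exact (mul_ne_zero (neg_ne_zero.2 hB) hy) hY.symm
  have hXe : (X - e) * (x - f) = (f - e) * (x - g) := by linear_combination hX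
  have key : ((X - e) ^ 2 - (e - f) * (e - g)) * (x - f) ^ 2 =
      (f - e) * (f - g) * ((x - e) ^ 2 - (e - f) * (e - g)) := by
    have h5 : (X - e) ^ 2 * (x - f) ^ 2 = ((f - e) * (x - g)) ^ 2 := by rw [← mul_pow, hXe]
    linear_combination h5
  rw [if_neg hY0, if_neg hy]
  by_cases h3 : (x - e) ^ 2 = (e - f) * (e - g)
  · have h4 : X - e = -(x - e) := by
      apply mul_right_cancel₀ hxf
      linear_combination hXe + h3
    rw [if_pos (by rw [h4, neg_sq, h3]), if_pos h3, h4]
  · have h4 : ¬ (X - e) ^ 2 = (e - f) * (e - g) := by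
      intro h4
      apply h3
      rw [h4, sub_self, zero_mul] at key
      exact sub_eq_zero.1 ((mul_eq_zero.1 key.symm).resolve_left hB)
    rw [if_neg h3, if_neg h4, ← neg_div, div_eq_div_iff (mul_ne_zero h2 hY0) (mul_ne_zero h2 hy)]
    apply mul_right_cancel₀ (pow_ne_zero 2 hxf)
    linear_combination (2 * y) * key + 2 * ((x - e) ^ 2 - (e - f) * (e - g)) * hY

variable [DecidableEq K]

lemma y_ne (_h2 : (2 : K) ≠ 0) {e f g x y : K} (h : (crv e f g).toAffine.Nonsingular x y)
    (hQ : (Affine.Point.some x y h : (crv e f g).toAffine.Point) + Affine.Point.some x y h ≠ 0) :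
    y ≠ 0 := by
  intro hy
  apply hQ
  refine Affine.Point.add_of_Y_eq rfl ?_
  simp only [Affine.negY, crv]
  rw [hy]; ring

/-- (K2) -/
theorem rr_sq (h2 : (2 : K) ≠ 0) {e f g : K} (Q : (crv e f g).toAffine.Point)
    (hQ : Q + Q ≠ 0) : rr e f g Q ^ 2 = dlW e f g (Q + Q) := by
  cases Q with
  | zero => exact absurd (add_zero _) hQ
  | some x1 y1 h1 =>
    have q1 := crv_eqn.mp h1.1
    have hy0 := y_ne h2 h1 hQ
    have hneg : y1 ≠ (crv e f g).toAffine.negY x1 y1 := by
      intro hh
      simp only [Affine.negY, crv] at hh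
      have : 2 * y1 = 0 := by linear_combination hh
      exact hy0 ((mul_eq_zero.1 this).resolve_left h2)
    rw [Affine.Point.add_self_of_Y_ne hneg, dlW_some, rr_some, if_neg hy0]
    have h2y : 2 * y1 ≠ 0 := mul_ne_zero h2 hy0
    set s := (crv e f g).toAffine.slope x1 x1 y1 y1 with hs
    have hslope : s * (2 * y1) =
        (x1 - f) * (x1 - g) + (x1 - e) * (x1 - g) + (x1 - e) * (x1 - f) := by
      rw [hs, Affine.slope_of_Y_ne rfl hneg]
      simp only [Affine.negY, crv]
      have e3' : y1 - (-y1 - 0 * x1 - 0) = 2 * y1 := by ring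
      rw [e3', div_mul_cancel₀ _ h2y]
      ring
    have hX : (crv e f g).toAffine.addX x1 x1 s = s ^ 2 + (e + f + g) - 2 * x1 := by
      simp only [Affine.addX, crv]; ring
    rw [hX]
    have key : (s ^ 2 + (e + f + g) - 2 * x1 - e) * (2 * y1) ^ 2 =
        ((x1 - e) ^ 2 - (e - f) * (e - g)) ^ 2 := by
      have h5 : (s * (2 * y1)) ^ 2 =
        ((x1 - f) * (x1 - g) + (x1 - e) * (x1 - g) + (x1 - e) * (x1 - f)) ^ 2 := by rw [hslope]
      linear_combination h5 + (4 * (f + g - 2 * x1)) * q1
    by_cases hA : (x1 - e) ^ 2 = (e - f) * (e - g)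
    · rw [if_pos hA]
      have h3 : s ^ 2 + (e + f + g) - 2 * x1 = e := by
        rw [hA, sub_self, zero_pow two_ne_zero] at key
        exact sub_eq_zero.1 ((mul_eq_zero.1 key).resolve_right (pow_ne_zero 2 h2y))
      rw [if_pos h3, hA]
    · rw [if_neg hA]
      have h3 : s ^ 2 + (e + f + g) - 2 * x1 ≠ e := by
        intro h3
        rw [h3, sub_self, zero_mul] at key
        exact hA (sub_eq_zero.1 ((pow_eq_zero_iff two_ne_zero).1 key.symm))
      rw [if_neg h3, div_pow, ← key, mul_div_assoc, div_self (pow_ne_zero 2 h2y), mul_one]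

lemma rr_ne (h2 : (2 : K) ≠ 0) {e f g : K} (Q : (crv e f g).toAffine.Point) :
    rr e f g Q ≠ 0 := by
  cases Q with
  | zero => exact one_ne_zero
  | some x y h =>
    have q := crv_eqn.mp h.1
    rw [rr_some]
    split_ifs with h1 h3
    · exact one_ne_zero
    · intro h4
      rw [h4, zero_mul, zero_mul] at q
      exact h1 ((pow_eq_zero_iff two_ne_zero).1 q)
    · exact div_ne_zero (sub_ne_zero.2 h3) (mul_ne_zero h2 h1)

/-- translation by a point of order two -/
lemma add_T2 {e f g t x y : K} (h : (crv e f g).toAffine.Nonsingular x y)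
    (n : (crv e f g).toAffine.Nonsingular t 0) (hx : x ≠ t) :
    ∃ X Y h', (Affine.Point.some x y h + Affine.Point.some t 0 n : (crv e f g).toAffine.Point) =
      Affine.Point.some X Y h' ∧
      (X - t) * (x - t) = 3 * t ^ 2 - 2 * (e + f + g) * t + (e * f + e * g + f * g) ∧
      Y * (x - t) ^ 2 = -(3 * t ^ 2 - 2 * (e + f + g) * t + (e * f + e * g + f * g)) * y := by
  have q := crv_eqn.mp h.1
  have q0 := crv_eqn.mp n.1
  have hx' : x - t ≠ 0 := sub_ne_zero.2 hx
  refine ⟨_, _, _, Affine.Point.add_of_X_ne hx, ?_⟩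
  set s := (crv e f g).toAffine.slope x t y 0 with hs
  have hslope : s * (x - t) = y := by
    rw [hs, Affine.slope_of_X_ne hx, div_mul_cancel₀ _ hx', sub_zero]
  have hX : (crv e f g).toAffine.addX x t s = s ^ 2 + (e + f + g) - x - t := by
    simp only [Affine.addX, crv]; ring
  have hY : (crv e f g).toAffine.addY x t y s = -(s * (s ^ 2 + (e + f + g) - x - t - x) + y) := by
    simp only [Affine.addY, Affine.negAddY, Affine.negY, Affine.addX, crv]; ring
  have h1 : s ^ 2 * (x - t) ^ 2 = y ^ 2 := by rw [← hslope]; ring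
  have h3 : (s ^ 2 + (e + f + g) - x - t - t) * (x - t) =
      3 * t ^ 2 - 2 * (e + f + g) * t + (e * f + e * g + f * g) := by
    apply mul_right_cancel₀ hx'
    linear_combination h1 + q - q0
  rw [hX, hY]
  refine ⟨h3, ?_⟩
  rw [← h3]
  linear_combination (-(s ^ 2 + (e + f + g) - x - t - x) * (x - t)) * hslope

/-- points of order two -/
lemma tors2 (h2 : (2 : K) ≠ 0) {e f g : K} {T : (crv e f g).toAffine.Point} (hT : T + T = 0) :
    T = 0 ∨ ∃ t n, T = Affine.Point.some t 0 n ∧ (t = e ∨ t = f ∨ t = g) := by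
  cases T with
  | zero => left; rfl
  | some x y h =>
    right
    have h3 : (Affine.Point.some x y h : (crv e f g).toAffine.Point) =
      -(Affine.Point.some x y h) := eq_neg_of_add_eq_zero_left hT
    rw [Affine.Point.neg_some] at h3
    simp only [Affine.Point.some.injEq, true_and] at h3
    simp only [Affine.negY, crv] at h3
    have h4 : 2 * y = 0 := by linear_combination h3
    have h5 : y = 0 := (mul_eq_zero.1 h4).resolve_left h2
    subst h5
    refine ⟨x, h, rfl, ?_⟩
    have q := crv_eqn.mp h.1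
    rw [zero_pow two_ne_zero] at q
    rcases mul_eq_zero.1 q.symm with h6 | h6
    · rcases mul_eq_zero.1 h6 with h6 | h6
      · exact Or.inl (sub_eq_zero.1 h6)
      · exact Or.inr (Or.inl (sub_eq_zero.1 h6))
    · exact Or.inr (Or.inr (sub_eq_zero.1 h6))

/-- (K3) -/
theorem rr_add (h2 : (2 : K) ≠ 0) {e f g : K} (hef : e ≠ f) (heg : e ≠ g) (hfg : f ≠ g)
    (Q T : (crv e f g).toAffine.Point) (hQ : Q + Q ≠ 0) (hT : T + T = 0) :
    rr e f g (Q + T) = ((ww e T : ℤ) : K) * rr e f g Q := by
  cases Q with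
  | zero => exact absurd (add_zero _) hQ
  | some x y h =>
    have q := crv_eqn.mp h.1
    have hy := y_ne h2 h hQ
    have hne : ∀ t : K, (t - e) * (t - f) * (t - g) = 0 → x ≠ t := by
      rintro t ht rfl
      rw [ht] at q
      exact hy ((pow_eq_zero_iff two_ne_zero).1 q)
    rcases tors2 h2 hT with rfl | ⟨t, n, rfl, ht⟩
    · rw [add_zero]
      change _ = (((1 : ℤ)) : K) * _
      rw [Int.cast_one, one_mul]
    · have hxt : x ≠ t := hne t (by rcases ht with rfl | rfl | rfl <;> ring)
      obtain ⟨X, Y, h', e1, hX, hY⟩ := add_T2 h n hxt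
      rw [e1, rr_some, rr_some, ww_some]
      rcases ht with rfl | rfl | rfl
      · rw [if_pos rfl, Int.cast_one, one_mul]
        refine alg1 h2 hy (sub_ne_zero.2 hxt)
          (mul_ne_zero (sub_ne_zero.2 hef) (sub_ne_zero.2 heg)) ?_ ?_
        · linear_combination hX
        · linear_combination hY
      · rw [if_neg hef.symm, Int.cast_neg, Int.cast_one, neg_one_mul]
        refine alg2 h2 hy (sub_ne_zero.2 hxt)
          (mul_ne_zero (sub_ne_zero.2 hef.symm) (sub_ne_zero.2 hfg)) ?_ ?_
        · linear_combination hX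
        · linear_combination hY
      · rw [if_neg heg.symm, Int.cast_neg, Int.cast_one, neg_one_mul]
        have h8 := alg2 (e := e) (f := t) (g := f) (x := x) (y := y) (X := X) (Y := Y) h2 hy
          (sub_ne_zero.2 hxt) (mul_ne_zero (sub_ne_zero.2 heg.symm) (sub_ne_zero.2 hfg.symm))
          (by linear_combination hX) (by linear_combination hY)
        rw [mul_comm (e - t) (e - f)] at h8
        exact h8

/-- multiplicativity -/
theorem ww_add [CharZero K] {e f g : K} (hef : e ≠ f) (heg : e ≠ g) (hfg : f ≠ g)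
    (hex : ∃ Q : (crv e f g).toAffine.Point, Q + Q ≠ 0)
    (S T : (crv e f g).toAffine.Point) (hS : S + S = 0) (hT : T + T = 0) :
    ww e (S + T) = ww e S * ww e T := by
  obtain ⟨Q, hQ⟩ := hex
  have hST : S + T + (S + T) = 0 := by
    rw [add_add_add_comm, hS, hT, add_zero]
  have hQS : Q + S + (Q + S) ≠ 0 := by
    rw [add_add_add_comm, hS, add_zero]; exact hQ
  have h1 := rr_add two_ne_zero hef heg hfg Q (S + T) hQ hST
  have h3 := rr_add two_ne_zero hef heg hfg (Q + S) T hQS hT
  have h4 := rr_add two_ne_zero hef heg hfg Q S hQ hS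
  rw [← add_assoc, h3, h4, ← mul_assoc] at h1
  have h5 := mul_right_cancel₀ (rr_ne two_ne_zero Q) h1
  rw [← Int.cast_mul] at h5
  rw [mul_comm (ww e S)]
  exact (Int.cast_injective h5).symm

/-- the two characters separate the points of order two -/
theorem ww_inj (h2 : (2 : K) ≠ 0) {e f g : K} (hef : e ≠ f) (heg : e ≠ g) (hfg : f ≠ g)
    {S T : (crv e f g).toAffine.Point} (hS : S + S = 0) (hT : T + T = 0)
    (h1 : ww e S = ww e T) (h3 : ww f S = ww f T) : S = T := by
  have hz : ∀ u : K, ww u (0 : (crv e f g).toAffine.Point) = 1 := fun u => rfl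
  rcases tors2 h2 hS with rfl | ⟨s, n, rfl, hs⟩
  · rcases tors2 h2 hT with rfl | ⟨t, n', rfl, ht⟩
    · rfl
    · exfalso
      rw [hz, ww_some] at h1 h3
      rcases ht with rfl | rfl | rfl
      · rw [if_neg hef] at h3; exact absurd h3 (by norm_num)
      · rw [if_neg hef.symm] at h1; exact absurd h1 (by norm_num)
      · rw [if_neg heg.symm] at h1; exact absurd h1 (by norm_num)
  · rcases tors2 h2 hT with rfl | ⟨t, n', rfl, ht⟩
    · exfalso
      rw [hz, ww_some] at h1 h3
      rcases hs with rfl | rfl | rfl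
      · rw [if_neg hef] at h3; exact absurd h3 (by norm_num)
      · rw [if_neg hef.symm] at h1; exact absurd h1 (by norm_num)
      · rw [if_neg heg.symm] at h1; exact absurd h1 (by norm_num)
    · rw [ww_some, ww_some] at h1 h3
      have hst : s = t := by
        rcases hs with rfl | rfl | rfl <;> rcases ht with rfl | rfl | rfl
        · rfl
        · rw [if_pos rfl, if_neg hef.symm] at h1; exact absurd h1 (by norm_num)
        · rw [if_pos rfl, if_neg heg.symm] at h1; exact absurd h1 (by norm_num)
        · rw [if_pos rfl, if_neg hef.symm] at h1; exact absurd h1 (by norm_num)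
        · rfl
        · rw [if_pos rfl, if_neg hfg.symm] at h3; exact absurd h3 (by norm_num)
        · rw [if_pos rfl, if_neg heg.symm] at h1; exact absurd h1 (by norm_num)
        · rw [if_pos rfl, if_neg hfg.symm] at h3; exact absurd h3 (by norm_num)
        · rfl
      subst hst
      rfl

lemma crv_swap (e f g : K) : crv f e g = crv e f g := by
  simp only [crv]
  congr 1 <;> ring

end Pool.Agent.Y65.D2
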